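import Pool.Agent.W2helper5.QD.Stm

/-!
# Project QD (helper5), piece LU: local strict monotonicity of the defect
-/

set_option autoImplicit false

namespace Pool.Agent.W2helper53.QD

open MeasureTheory Set Filter Topology Pool.V11275.Quad Pool.Agent.Helper717.Hull1
open Pool.Agent.Helper717.Hull2 Pool.Agent.W2helper5.QD

lemma mr_mono' {R : Set E2} (h : Body R) {S T : Set E2} (hST : ∀ p ∈ R, p ∈ S → p ∈ T) :
    (mu R).real S ≤ (mu R).real T := by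
  have hfin := h.fin
  have hm : MeasurableSet R := h.comp.isClosed.measurableSet
  unfold Measure.real
  refine ENNReal.toReal_mono (measure_ne_top _ _) ?_
  unfold mu
  rw [Measure.restrict_apply' hm, Measure.restrict_apply' hm]
  exact measure_mono fun p hp => ⟨hST p hp.2 hp.1, hp.2⟩

lemma abs_coord (p : E2) : |p 0| ≤ ‖p‖ ∧ |p 1| ≤ ‖p‖ := by
  constructor
  · exact PiLp.norm_apply_le p 0
  · exact PiLp.norm_apply_le p 1

lemma sg_abs (m : ℕ) : |sg m| = 1 := by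
  unfold sg
  split <;> norm_num

/-- the choice of `τ` -/
lemma exists_tau {y c x0 : ℝ} (hc : 0 < 1 + c) (hy : 0 < y) (hx : x0 < (1 - c) / 2)
    (h : y ^ 2 + ((1 - c) / 2 - x0) ^ 2 < ((1 + c) / 2) ^ 2) :
    ∃ τ : ℝ, 0 < τ ∧ 4 * τ < c + 1 ∧ 4 * τ < y + y ∧ x0 + τ ≤ (1 - c) / 2 - τ ∧ τ ≤ 1 ∧
      (y + 2 * τ) ^ 2 + ((1 - c) / 2 + 2 * τ - x0) ^ 2 < ((c + 1) / 2 - 2 * τ) ^ 2 := by
  have e1 : ∀ᶠ τ in 𝓝 (0 : ℝ), 4 * τ < c + 1 :=
    (Continuous.tendsto' (by fun_prop : Continuous fun τ : ℝ => 4 * τ) 0 _ rfl).eventually_lt_const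
      (by linarith)
  have e2 : ∀ᶠ τ in 𝓝 (0 : ℝ), 4 * τ < y + y :=
    (Continuous.tendsto' (by fun_prop : Continuous fun τ : ℝ => 4 * τ) 0 _ rfl).eventually_lt_const
      (by linarith)
  have e3 : ∀ᶠ τ in 𝓝 (0 : ℝ), x0 + τ - ((1 - c) / 2 - τ) < 0 :=
    (Continuous.tendsto' (by fun_prop : Continuous fun τ : ℝ => x0 + τ - ((1 - c) / 2 - τ))
      0 _ rfl).eventually_lt_const (by linarith)
  have e4 : ∀ᶠ τ in 𝓝 (0 : ℝ), τ < 1 := eventually_lt_nhds (by norm_num)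
  have e5 : ∀ᶠ τ in 𝓝 (0 : ℝ), (y + 2 * τ) ^ 2 + ((1 - c) / 2 + 2 * τ - x0) ^ 2 -
      ((c + 1) / 2 - 2 * τ) ^ 2 < 0 :=
    (Continuous.tendsto' (by fun_prop : Continuous fun τ : ℝ => (y + 2 * τ) ^ 2 +
      ((1 - c) / 2 + 2 * τ - x0) ^ 2 - ((c + 1) / 2 - 2 * τ) ^ 2)
      0 _ rfl).eventually_lt_const (by nlinarith)
  have e0 : ∀ᶠ τ in 𝓝[>] (0 : ℝ), 0 < τ := eventually_mem_nhdsWithin
  have hall := (((((e1.and e2).and e3).and e4).and e5).filter_mono nhdsWithin_le_nhds).and e0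
  obtain ⟨τ, ⟨⟨⟨⟨h1, h2⟩, h3⟩, h4⟩, h5⟩, h6⟩ := hall.exists (f := 𝓝[>] (0 : ℝ))
  exact ⟨τ, h6, h1, h2, by linarith, h4.le, by linarith⟩

/-- the bands -/
lemma band_aux {κ t s h x0 x ε : ℝ} (hε : ε = κ / 12) (ht : |t| ≤ ε) (hs : |s - 1| ≤ ε)
    (hh0 : |h - x0| ≤ κ / 2) (hx0 : |x0| ≤ 1) (hκ : κ ≤ 1) (_ : 0 < κ) (hx : |x| ≤ 4) :
    |x * t + h * s - x0| ≤ κ := by
  have e1 : x * t + h * s - x0 = x * t + h * (s - 1) + (h - x0) := by ring
  rw [e1]
  have h1 : |x * t| ≤ 4 * ε := by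
    rw [abs_mul]
    exact mul_le_mul hx ht (abs_nonneg _) (by norm_num)
  have h2 : |h| ≤ 2 := by
    have : |h| ≤ |h - x0| + |x0| := by
      have := abs_add_le (h - x0) x0
      rwa [sub_add_cancel] at this
    linarith
  have h3 : |h * (s - 1)| ≤ 2 * ε := by
    rw [abs_mul]
    exact mul_le_mul h2 hs (abs_nonneg _) (by norm_num)
  have h4 := abs_add_three (x * t) (h * (s - 1)) (h - x0)
  rw [hε] at h1 h3
  linarith

/-- **LU** -/
theorem LU : P_LU := by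
  intro hU hL hWV hDEC hUC hB hReg hT1 hT2 m hm hodd h00 h01 hband
  obtain ⟨α, hα⟩ : ∃ α : ℝ, α = al m := ⟨_, rfl⟩
  rw [← hα] at h00 hband
  have hmpos : (5 : ℝ) ≤ m := by exact_mod_cast hm
  have hα0 : 0 < α := by
    rw [hα]
    exact div_pos Real.pi_pos (by linarith)
  have hα5 : α ≤ Real.pi / 5 := by
    rw [hα]
    exact div_le_div_of_nonneg_left Real.pi_pos.le (by norm_num) hmpos
  obtain ⟨-, hxi0, hxi1⟩ := hT1 α hα0 hα5
  obtain ⟨hlu, -⟩ := hT2 hT1 α hα0 hα5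
  obtain ⟨hPB, -⟩ := hReg m (by omega)
  obtain ⟨-, -, hPc, -, -, -⟩ := hB (P m) hPB
  have hpi := Real.pi_pos
  have hc0 : 0 < Real.cos α := Real.cos_pos_of_mem_Ioo ⟨by linarith, by linarith⟩
  have hc1 : Real.cos α < 1 := by
    rw [← Real.cos_zero]
    exact Real.cos_lt_cos_of_nonneg_of_le_pi le_rfl (by linarith) hα0
  have hs0 : 0 < Real.sin (α / 2) := Real.sin_pos_of_pos_of_lt_pi (by linarith) (by linarith)
  have hs1 : Real.sin (α / 2) ≤ 1 := Real.sin_le_one _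
  have hch : 0 < Real.cos (α / 2) := Real.cos_pos_of_mem_Ioo ⟨by linarith, by linarith⟩
  have hxi2 : xi α ≤ (1 - Real.cos α) / 4 := by
    refine hxi1.trans ?_
    have : 0 ≤ (1 - Real.cos α) / 4 := by linarith
    nlinarith
  have hy0 : 0 < y0 α := by
    unfold y0
    have := mul_pos hxi0 hs0
    exact div_pos (by linarith) hch
  obtain ⟨x0, hx0⟩ : ∃ x0 : ℝ, x0 = sg m * xi α := ⟨_, rfl⟩
  rw [← hx0] at h00 hband
  have hx0a : |x0| = xi α := by rw [hx0, abs_mul, sg_abs, one_mul, abs_of_pos hxi0]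
  have hx0b : -(xi α) ≤ x0 ∧ x0 ≤ xi α := abs_le.1 hx0a.le
  have hlu' : y0 α ^ 2 + ((1 - Real.cos α) / 2 - x0) ^ 2 < ((1 + Real.cos α) / 2) ^ 2 := by
    refine lt_of_le_of_lt ?_ hlu
    have : ((1 - Real.cos α) / 2 - x0) ^ 2 ≤ ((1 - Real.cos α) / 2 + xi α) ^ 2 :=
      pow_le_pow_left₀ (by linarith) (by linarith) 2
    linarith
  have hy1 : y0 α < 1 := by
    have h1 : y0 α ^ 2 < ((1 + Real.cos α) / 2) ^ 2 := by
      have := sq_nonneg ((1 - Real.cos α) / 2 - x0)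
      linarith
    have h2 := (pow_lt_pow_iff_left₀ hy0.le (by linarith) (by norm_num : (2 : ℕ) ≠ 0)).1 h1
    linarith
  obtain ⟨τ, hτ0, hτ1, hτ2, hτ3, hτ4, hτ5⟩ := exists_tau (by linarith) hy0 (by linarith) hlu'
  obtain ⟨ρ, η1, hρ, hη1, hη1', hbd⟩ := hband τ hτ0
  obtain ⟨κ, hκ⟩ : ∃ κ : ℝ, κ = min (min ρ τ) 1 := ⟨_, rfl⟩
  have hκ0 : 0 < κ := by rw [hκ]; exact lt_min (lt_min hρ hτ0) one_pos
  have hκρ : κ ≤ ρ := by rw [hκ]; exact (min_le_left _ _).trans (min_le_left _ _)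
  have hκτ : κ ≤ τ := by rw [hκ]; exact (min_le_left _ _).trans (min_le_right _ _)
  have hκ1 : κ ≤ 1 := by rw [hκ]; exact min_le_right _ _
  obtain ⟨η2, hη2, hη2', huc⟩ := hUC hB hReg m (by omega) (κ / 4) (by linarith)
  -- the choice of `δ`
  have f1 : ∀ᶠ θ in 𝓝 (0 : ℝ), |Real.tan θ| < κ / 12 := by
    have hct : ContinuousAt (fun θ : ℝ => |Real.tan θ|) 0 :=
      (Real.continuousAt_tan.2 (by rw [Real.cos_zero]; norm_num)).abs
    refine hct.tendsto.eventually_lt_const ?_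
    rw [Real.tan_zero, abs_zero]
    linarith
  have f2 : ∀ᶠ θ in 𝓝 (0 : ℝ), |1 / Real.cos θ - 1| < κ / 12 := by
    have hct : ContinuousAt (fun θ : ℝ => |1 / Real.cos θ - 1|) 0 := by
      refine ContinuousAt.abs (ContinuousAt.sub (ContinuousAt.div continuousAt_const
        Real.continuous_cos.continuousAt (by rw [Real.cos_zero]; norm_num)) continuousAt_const)
    refine hct.tendsto.eventually_lt_const ?_
    rw [Real.cos_zero]
    norm_num
    linarith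
  have f3 : ∀ᶠ θ in 𝓝 (0 : ℝ), |hh (P m) θ - x0| < κ / 4 := by
    have hct : Continuous (fun θ : ℝ => |hh (P m) θ - x0|) := (hPc.sub continuous_const).abs
    refine (hct.tendsto 0).eventually_lt_const ?_
    rw [h00, sub_self, abs_zero]
    linarith
  have f4 : ∀ᶠ θ in 𝓝 (0 : ℝ), |hh (P m) (θ + Real.pi / 2)| < κ / 4 := by
    have hct : Continuous (fun θ : ℝ => |hh (P m) (θ + Real.pi / 2)|) :=
      (hPc.comp (continuous_id.add continuous_const)).abs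
    refine (hct.tendsto 0).eventually_lt_const ?_
    rw [zero_add, h01, abs_zero]
    linarith
  obtain ⟨ε, hε0, hε⟩ := Metric.eventually_nhds_iff.1 (((f1.and f2).and f3).and f4)
  refine ⟨min η1 η2, min (ε / 2) 1, lt_min hη1 hη2, (min_le_left _ _).trans_lt hη1',
    lt_min (by linarith) one_pos, ?_⟩
  intro η hη0 hη R hR hnear
  obtain ⟨g1, g2, g3, g4, g5⟩ := hbd η hη0 (hη.trans (min_le_left _ _)) R hR hnear
  have huc' := huc η hη0 (hη.trans (min_le_right _ _)) R hR hnear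
  obtain ⟨hbis, -, -, -, -, -⟩ := hB R hR
  -- facts for a small angle
  have hsmall : ∀ θ ∈ Icc (-(min (ε / 2) 1)) (min (ε / 2) 1), -(Real.pi / 2) < θ ∧
      θ < Real.pi / 2 ∧ 0 < Real.cos θ ∧
      (∀ x : ℝ, |x| ≤ 4 → |x * Real.tan θ + hh R θ / Real.cos θ - x0| ≤ κ) ∧
      (∀ x : ℝ, |x| ≤ 4 → |x * Real.tan θ + hh R (θ + Real.pi / 2) / Real.cos θ - 0| ≤ κ) := by
    intro θ hθ
    have m1 := min_le_left (ε / 2) 1
    have m2 := min_le_right (ε / 2) 1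
    have hpi3 := Real.pi_gt_three
    have hθa : dist θ 0 < ε := by
      rw [Real.dist_eq, sub_zero, abs_lt]
      constructor <;> linarith [hθ.1, hθ.2]
    obtain ⟨⟨⟨q1, q2⟩, q3⟩, q4⟩ := hε hθa
    have hp1 : -(Real.pi / 2) < θ := by linarith [hθ.1]
    have hp2 : θ < Real.pi / 2 := by linarith [hθ.2]
    refine ⟨hp1, hp2, Real.cos_pos_of_mem_Ioo ⟨hp1, hp2⟩, ?_, ?_⟩
    · intro x hx
      rw [div_eq_mul_one_div (hh R θ)]
      refine band_aux rfl q1.le q2.le ?_ (by rw [hx0a]; linarith) hκ1 hκ0 hx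
      have h1 := (huc' θ).1
      have e1 : hh R θ - x0 = (hh R θ - hh (P m) θ) + (hh (P m) θ - x0) := by ring
      rw [e1]
      refine (abs_add_le _ _).trans (by linarith)
    · intro x hx
      rw [div_eq_mul_one_div (hh R (θ + Real.pi / 2))]
      refine band_aux rfl q1.le q2.le ?_ (by norm_num) hκ1 hκ0 hx
      have h1 := (huc' (θ + Real.pi / 2)).1
      have e1 : hh R (θ + Real.pi / 2) - 0 = (hh R (θ + Real.pi / 2) -
        hh (P m) (θ + Real.pi / 2)) + (hh (P m) (θ + Real.pi / 2)) := by ring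
      rw [e1]
      refine (abs_add_le _ _).trans (by linarith)
  intro θ hθ θ' hθ' hlt
  obtain ⟨a1, a2, a3, a4, a5⟩ := hsmall θ hθ
  obtain ⟨b1, b2, b3, b4, b5⟩ := hsmall θ' hθ'
  have hΔ : 0 < Real.tan θ' - Real.tan θ :=
    sub_pos.2 (Real.tan_lt_tan_of_lt_of_lt_pi_div_two a1 b2 hlt)
  have hR4 : ∀ p ∈ R, |p 0| ≤ 4 ∧ |p 1| ≤ 4 := fun p hp =>
    ⟨by linarith [(abs_coord p).1, g1 p hp], by linarith [(abs_coord p).2, g1 p hp]⟩
  have d0 : ∀ p : E2, dot (e 0) p = p 0 := fun p => by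
    simp [dot]
  have d1 : ∀ p : E2, dot (e (-(Real.pi / 2))) p = - p 1 := fun p => by
    simp [dot]
  have dpi : ∀ p : E2, dot (e (Real.pi / 2)) p = p 1 := fun p => by
    simp [dot]
  have z0 : -(Real.pi / 2) + Real.pi / 2 = 0 := by ring
  have z1 : ∀ θ : ℝ, -(Real.pi / 2) + θ + Real.pi / 2 = θ := fun θ => by ring
  -- the first wedge
  obtain ⟨w1, -, -⟩ := hWV hU hL R hR (-(Real.pi / 2)) θ θ' (hh R θ) (hh R θ') x0 (y0 α) (y0 α)
    τ ρ 4 a1 hlt b2 hτ0 hτ2 (by linarith) (by linarith)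
    (fun p hp => by rw [d1, abs_neg]; exact (hR4 p hp).2)
    (fun p hp h => by
      rw [z0, d0] at h
      rw [d1]
      have := abs_le.1 (g4 p hp h)
      constructor <;> linarith)
    (fun p h h1 h2 => by
      rw [z0, d0] at h
      rw [d1] at h1 h2
      exact g5 p h (abs_le.2 ⟨by linarith, by linarith⟩))
    (fun x hx => ⟨(a4 x hx).trans hκρ, (b4 x hx).trans hκρ⟩)
    (by rw [z1]; exact hbis θ) (by rw [z1]; exact hbis θ')
  rw [z1, z1] at w1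
  -- the second wedge
  obtain ⟨-, w2, w3⟩ := hWV hU hL R hR 0 θ θ' (hh R (θ + Real.pi / 2)) (hh R (θ' + Real.pi / 2)) 0
    (Real.cos α) 1 τ ρ 4 a1 hlt b2 hτ0 hτ1 (by linarith) (by linarith)
    (fun p hp => by rw [d0]; exact (hR4 p hp).1)
    (fun p hp h => by
      rw [zero_add, dpi, sub_zero] at h
      rw [d0]
      exact g2 p hp h)
    (fun p h h1 h2 => by
      rw [zero_add, dpi, sub_zero] at h
      rw [d0] at h1 h2
      exact g3 p h h1 h2)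
    (fun x hx => ⟨(a5 x hx).trans hκρ, (b5 x hx).trans hκρ⟩)
    (by rw [zero_add]; exact hbis _) (by rw [zero_add]; exact hbis _)
  have w2' := w2 (x0 + τ) hτ3
  have w3' := w3 (x0 - τ) (by linarith)
  rw [zero_add, zero_add] at w2' w3'
  have dec := hDEC R hR {p | hh R θ ≤ dot (e θ) p} {p | hh R θ' ≤ dot (e θ') p}
    {p | hh R (θ + Real.pi / 2) ≤ dot (e (θ + Real.pi / 2)) p}
    {p | hh R (θ' + Real.pi / 2) ≤ dot (e (θ' + Real.pi / 2)) p}
    (half_meas _ _) (half_meas _ _) (half_meas _ _) (half_meas _ _)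
  have hline : ∀ p ∈ R, |-(p 1) * Real.tan θ + hh R θ / Real.cos θ - x0| ≤ τ := fun p hp =>
    (a4 _ (by rw [abs_neg]; exact (hR4 p hp).2)).trans hκτ
  have hmemU : ∀ p : E2, hh R θ ≤ dot (e θ) p ↔ -(p 1) * Real.tan θ + hh R θ / Real.cos θ ≤ p 0 := by
    intro p
    rw [Real.tan_eq_sin_div_cos]
    have e1 : -(p 1) * (Real.sin θ / Real.cos θ) + hh R θ / Real.cos θ =
        (-(p 1) * Real.sin θ + hh R θ) / Real.cos θ := by ring
    rw [e1, div_le_iff₀ a3]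
    unfold dot
    rw [e_zero', e_one']
    constructor <;> intro h <;> linarith
  have c1 : (mu R).real (({p | hh R (θ' + Real.pi / 2) ≤ dot (e (θ' + Real.pi / 2)) p} \
      {p | hh R (θ + Real.pi / 2) ≤ dot (e (θ + Real.pi / 2)) p}) ∩
      {p | hh R θ ≤ dot (e θ) p}) ≤
      (mu R).real (({p | hh R (θ' + Real.pi / 2) ≤ dot (e (θ' + Real.pi / 2)) p} \
      {p | hh R (θ + Real.pi / 2) ≤ dot (e (θ + Real.pi / 2)) p}) ∩
      {p | x0 - τ ≤ dot (e 0) p}) := by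
    refine mr_mono' hR fun p hp h => ⟨h.1, ?_⟩
    show x0 - τ ≤ dot (e 0) p
    rw [d0]
    have h1 := (hmemU p).1 h.2
    have h2 := abs_le.1 (hline p hp)
    linarith
  have c2 : (mu R).real (({p | hh R (θ + Real.pi / 2) ≤ dot (e (θ + Real.pi / 2)) p} \
      {p | hh R (θ' + Real.pi / 2) ≤ dot (e (θ' + Real.pi / 2)) p}) ∩
      {p | x0 + τ ≤ dot (e 0) p}) ≤
      (mu R).real (({p | hh R (θ + Real.pi / 2) ≤ dot (e (θ + Real.pi / 2)) p} \
      {p | hh R (θ' + Real.pi / 2) ≤ dot (e (θ' + Real.pi / 2)) p}) ∩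
      {p | hh R θ ≤ dot (e θ) p}) := by
    refine mr_mono' hR fun p hp h => ⟨h.1, ?_⟩
    show hh R θ ≤ dot (e θ) p
    rw [hmemU]
    have h1 : x0 + τ ≤ dot (e 0) p := h.2
    rw [d0] at h1
    have h2 := abs_le.1 (hline p hp)
    linarith
  have hfinal : (y0 α + 2 * τ) ^ 2 * (Real.tan θ' - Real.tan θ) / 2 +
      ((1 - Real.cos α) / 2 + 2 * τ - x0) ^ 2 * (Real.tan θ' - Real.tan θ) / 2 <
      ((Real.cos α + 1) / 2 - 2 * τ) ^ 2 * (Real.tan θ' - Real.tan θ) / 2 := by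
    have := mul_lt_mul_of_pos_right hτ5 hΔ
    linarith
  have e2 : (y0 α + y0 α) / 2 + 2 * τ = y0 α + 2 * τ := by ring
  have e3 : (1 - Real.cos α) / 2 + τ - (x0 - τ) = (1 - Real.cos α) / 2 + 2 * τ - x0 := by ring
  rw [e2] at w1
  rw [e3] at w3'
  unfold G App
  linarith

end Pool.Agent.W2helper53.QD
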