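import Pool.Agent.W2helper5.QD.Stm

/-!
# Project QD (helper5), piece WV: the abstract wedge lemma
-/

set_option autoImplicit false

namespace Pool.Agent.W2helper53.QD

open MeasureTheory Set Pool.V11275.Quad Pool.Agent.Helper717.Hull1 Pool.Agent.Helper717.Hull2
open Pool.Agent.W2helper5.QD

/-- a point in the frame `a, rot a` -/
noncomputable def pt (a : E2) (x y : ℝ) : E2 := x • a + y • rot a

lemma pt_zero (a : E2) (x y : ℝ) : pt a x y 0 = x * a 0 - y * a 1 := by
  simp [pt]; ring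

lemma pt_one (a : E2) (x y : ℝ) : pt a x y 1 = x * a 1 + y * a 0 := by
  simp [pt]

lemma dot_pt {a : E2} (ha : dot a a = 1) (x y : ℝ) : dot a (pt a x y) = x := by
  unfold dot at *
  rw [pt_zero, pt_one]
  linear_combination x * ha

lemma dotr_pt {a : E2} (ha : dot a a = 1) (x y : ℝ) : dot (rot a) (pt a x y) = y := by
  unfold dot at *
  rw [pt_zero, pt_one, rot_zero, rot_one]
  linear_combination y * ha

lemma cr_pt {a : E2} (ha : dot a a = 1) (x y x' y' : ℝ) :
    cr (pt a x y) (pt a x' y') = x * y' - y * x' := by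
  unfold dot at ha
  unfold cr
  rw [pt_zero, pt_one, pt_zero, pt_one]
  linear_combination (x * y' - y * x') * ha

lemma cr_sub {a : E2} (ha : dot a a = 1) (x y x' y' : ℝ) (p : E2) :
    cr (pt a x y) (p - pt a x' y') = x * (dot (rot a) p - y') - y * (dot a p - x') := by
  unfold dot at *
  unfold cr
  simp only [PiLp.sub_apply]
  rw [pt_zero, pt_one, pt_zero, pt_one, rot_zero, rot_one]
  linear_combination (-(x * y') + y * x') * ha

lemma cr_sub' {a : E2} (ha : dot a a = 1) (x y x' y' : ℝ) (p : E2) :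
    cr (p - pt a x' y') (pt a x y) = y * (dot a p - x') - x * (dot (rot a) p - y') := by
  unfold dot at *
  unfold cr
  simp only [PiLp.sub_apply]
  rw [pt_zero, pt_one, pt_zero, pt_one, rot_zero, rot_one]
  linear_combination ((x * y') - y * x') * ha

lemma pt_add (a : E2) (x y x' y' r : ℝ) : pt a x y + r • pt a x' y' = pt a (x + r * x') (y + r * y') := by
  apply ext2
  · simp only [PiLp.add_apply, PiLp.smul_apply, smul_eq_mul, pt_zero]; ring
  · simp only [PiLp.add_apply, PiLp.smul_apply, smul_eq_mul, pt_one]; ring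

/-- upper bound for a set in a cone -/
theorem up (hU : P_CNU) {R : Set E2} (hR : Body R) {a : E2} (ha : dot a a = 1)
    {T T' k k' X1 c : ℝ} (hT : T < T') (hX : X1 * T + k = X1 * T' + k') (S : Set E2)
    (hS : ∀ p ∈ S, p ∈ R → dot a p * T + k ≤ dot (rot a) p ∧
      dot (rot a) p ≤ dot a p * T' + k' ∧ dot a p ≤ c) :
    (mu R).real S ≤ (max 0 (c - X1)) ^ 2 * (T' - T) / 2 := by
  have e1 : cr (pt a 1 T) (pt a 1 T') = T' - T := by rw [cr_pt ha]; ring
  have h := hU R hR S (pt a X1 (X1 * T + k)) (pt a 1 T) (pt a 1 T') a c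
    (by rw [e1]; linarith) (by rw [dot_pt ha]; norm_num) (by rw [dot_pt ha]; norm_num) ?_
  · rw [e1, dot_pt ha, dot_pt ha, dot_pt ha] at h
    simpa using h
  · intro p hp hpR
    obtain ⟨h1, h2, h3⟩ := hS p hp hpR
    refine ⟨?_, ?_, h3⟩
    · rw [cr_sub ha]
      linarith
    · rw [cr_sub' ha]
      linarith

/-- lower bound for a set containing a triangle -/
theorem lo (hL : P_CNL) {R : Set E2} (hR : Body R) {a : E2} (ha : dot a a = 1)
    {T T' x y c : ℝ} (hT : T < T') (hc : x ≤ c) (S : Set E2)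
    (h0 : pt a x y ∈ R) (h1 : pt a c (y + (c - x) * T) ∈ R)
    (h2 : pt a c (y + (c - x) * T') ∈ R)
    (hS : ∀ p : E2, y + (dot a p - x) * T < dot (rot a) p →
      dot (rot a) p < y + (dot a p - x) * T' → dot a p < c → p ∈ S) :
    (c - x) ^ 2 * (T' - T) / 2 ≤ (mu R).real S := by
  have e1 : cr (pt a 1 T) (pt a 1 T') = T' - T := by rw [cr_pt ha]; ring
  have h := hL R hR S (pt a x y) (pt a 1 T) (pt a 1 T') a c
    (by rw [e1]; linarith) (by rw [dot_pt ha]; norm_num) (by rw [dot_pt ha]; norm_num)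
    (by rw [dot_pt ha]; linarith) h0
    (by
      rw [dot_pt ha, dot_pt ha, pt_add]
      have e2 : x + (c - x) / 1 * 1 = c := by ring
      have e3 : y + (c - x) / 1 * T = y + (c - x) * T := by ring
      rw [e2, e3]
      exact h1)
    (by
      rw [dot_pt ha, dot_pt ha, pt_add]
      have e2 : x + (c - x) / 1 * 1 = c := by ring
      have e3 : y + (c - x) / 1 * T' = y + (c - x) * T' := by ring
      rw [e2, e3]
      exact h2) ?_
  · rw [e1, dot_pt ha, dot_pt ha, dot_pt ha] at h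
    simpa using h
  · intro p hp1 hp2 hp3
    rw [cr_sub ha] at hp1
    rw [cr_sub' ha] at hp2
    exact hS p (by linarith) (by linarith) hp3

lemma neg_unit {a : E2} (ha : dot a a = 1) : dot (-a) (-a) = 1 := by
  unfold dot at *
  simp only [PiLp.neg_apply]
  linear_combination ha

lemma dot_neg_left (a p : E2) : dot (-a) p = - dot a p := by
  unfold dot
  simp only [PiLp.neg_apply]
  ring

lemma rot_neg' (a : E2) : rot (-a) = - rot a := by
  apply ext2
  · simp
  · simp

lemma pt_neg (a : E2) (x y : ℝ) : pt (-a) x y = pt a (-x) (-y) := by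
  apply ext2
  · rw [pt_zero, pt_zero]; simp only [PiLp.neg_apply]; ring
  · rw [pt_one, pt_one]; simp only [PiLp.neg_apply]; ring

/-- one side of the crossing point -/
theorem half (hU : P_CNU) (hL : P_CNL) {R : Set E2} (hR : Body R) {a : E2} (ha : dot a a = 1)
    {T T' k k' X1 yc xl xr τ ρ L : ℝ} (hT : T < T') (hX : X1 * T + k = X1 * T' + k')
    (hτ : 0 < τ) (h4 : 4 * τ < xl + xr) (hxl : xl + τ ≤ L) (hxr : xr + τ ≤ L)
    (hRL : ∀ p ∈ R, |dot a p| ≤ L)
    (hout : ∀ p ∈ R, |dot (rot a) p - yc| ≤ ρ → dot a p ≤ xr + τ)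
    (hin : ∀ p : E2, |dot (rot a) p - yc| ≤ ρ → -xl + τ ≤ dot a p → dot a p ≤ xr - τ → p ∈ R)
    (hband : ∀ x : ℝ, |x| ≤ L → |x * T + k - yc| ≤ ρ ∧ |x * T' + k' - yc| ≤ ρ)
    (S : Set E2)
    (h1 : ∀ p ∈ S, dot a p * T + k ≤ dot (rot a) p ∧ dot (rot a) p ≤ dot a p * T' + k')
    (h1' : ∀ p : E2, dot a p * T + k < dot (rot a) p → dot (rot a) p < dot a p * T' + k' →
      p ∈ S) :
    (mu R).real S ≤ (max 0 (xr + τ - X1)) ^ 2 * (T' - T) / 2 ∧
    ∀ X', X1 ≤ X' → -xl + τ ≤ X' → X' ≤ xr - τ →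
      (xr - τ - X') ^ 2 * (T' - T) / 2 ≤ (mu R).real S := by
  constructor
  · refine up hU hR ha hT hX S ?_
    intro p hp hpR
    obtain ⟨p1, p2⟩ := h1 p hp
    obtain ⟨b1, b2⟩ := hband _ (hRL p hpR)
    rw [abs_le] at b1 b2
    exact ⟨p1, p2, hout p hpR (abs_le.2 ⟨by linarith, by linarith⟩)⟩
  · intro X' hX1 hX2 hX3
    have hc : |X'| ≤ L := abs_le.2 ⟨by linarith, by linarith⟩
    have hc' : |xr - τ| ≤ L := abs_le.2 ⟨by linarith, by linarith⟩
    obtain ⟨b1, -⟩ := hband X' hc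
    obtain ⟨c1, c2⟩ := hband (xr - τ) hc'
    have hle : X' * T + k ≤ X' * T' + k' := by nlinarith
    refine lo hL hR ha (y := X' * T + k) hT hX3 S ?_ ?_ ?_ ?_
    · refine hin _ (by rwa [dotr_pt ha]) (by rwa [dot_pt ha]) (by rwa [dot_pt ha])
    · refine hin _ ?_ (by rw [dot_pt ha]; linarith) (by rw [dot_pt ha])
      rw [dotr_pt ha]
      have e1 : X' * T + k + (xr - τ - X') * T - yc = (xr - τ) * T + k - yc := by ring
      rwa [e1]
    · refine hin _ ?_ (by rw [dot_pt ha]; linarith) (by rw [dot_pt ha])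
      rw [dotr_pt ha]
      rw [abs_le] at c1 c2 ⊢
      constructor
      · have : (xr - τ - X') * T ≤ (xr - τ - X') * T' :=
          mul_le_mul_of_nonneg_left hT.le (by linarith)
        nlinarith
      · nlinarith
    · intro p p1 p2 p3
      exact h1' p (by linarith) (by nlinarith)

/-- the location of the crossing point -/
theorem core (hU : P_CNU) (hL : P_CNL) {R : Set E2} (hR : Body R) {a : E2} (ha : dot a a = 1)
    {T T' k k' yc xl xr τ ρ L : ℝ} (hT : T < T')
    (hτ : 0 < τ) (h4 : 4 * τ < xl + xr) (hxl : xl + τ ≤ L) (hxr : xr + τ ≤ L)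
    (hRL : ∀ p ∈ R, |dot a p| ≤ L)
    (hout : ∀ p ∈ R, |dot (rot a) p - yc| ≤ ρ → -xl - τ ≤ dot a p ∧ dot a p ≤ xr + τ)
    (hin : ∀ p : E2, |dot (rot a) p - yc| ≤ ρ → -xl + τ ≤ dot a p → dot a p ≤ xr - τ → p ∈ R)
    (hband : ∀ x : ℝ, |x| ≤ L → |x * T + k - yc| ≤ ρ ∧ |x * T' + k' - yc| ≤ ρ)
    (S1 S2 : Set E2)
    (h1 : ∀ p : E2, p ∈ S1 ↔ dot a p * T + k ≤ dot (rot a) p ∧ dot (rot a) p < dot a p * T' + k')
    (h2 : ∀ p : E2, p ∈ S2 ↔ dot a p * T' + k' ≤ dot (rot a) p ∧ dot (rot a) p < dot a p * T + k)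
    (h12 : (mu R).real S1 = (mu R).real S2) :
    (mu R).real S2 ≤ ((xl + xr) / 2 + 2 * τ) ^ 2 * (T' - T) / 2 ∧
    (∀ s : ℝ, s ≤ (xr - xl) / 2 - τ → ((xl + xr) / 2 - 2 * τ) ^ 2 * (T' - T) / 2 ≤
      (mu R).real (S1 ∩ {p | s ≤ dot a p})) ∧
    (∀ s : ℝ, s ≤ (xr - xl) / 2 - τ →
      (mu R).real (S2 ∩ {p | s ≤ dot a p}) ≤ ((xr - xl) / 2 + τ - s) ^ 2 * (T' - T) / 2) := by
  have hΔ : 0 < T' - T := by linarith
  obtain ⟨X1, hX1⟩ : ∃ X1 : ℝ, X1 = (k - k') / (T' - T) := ⟨_, rfl⟩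
  have hX : X1 * T + k = X1 * T' + k' := by
    have : X1 * (T' - T) = k - k' := by rw [hX1]; field_simp
    linarith
  obtain ⟨u1, l1⟩ := half hU hL hR ha hT hX hτ h4 hxl hxr hRL (fun p hp h => (hout p hp h).2) hin
    hband S1 (fun p hp => ⟨((h1 p).1 hp).1, ((h1 p).1 hp).2.le⟩)
    (fun p p1 p2 => (h1 p).2 ⟨p1.le, p2⟩)
  have hneg : ∀ p : E2, dot (-a) p = - dot a p ∧ dot (rot (-a)) p = - dot (rot a) p := fun p =>
    ⟨dot_neg_left a p, by rw [rot_neg', dot_neg_left]⟩
  have habs : ∀ x y : ℝ, |(-x) - (-y)| = |x - y| := fun x y => by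
    rw [← abs_neg]; congr 1; ring
  obtain ⟨u2, l2⟩ := half hU hL hR (neg_unit ha) (T := T) (T' := T') (k := -k) (k' := -k')
    (X1 := -X1) (yc := -yc) (xl := xr) (xr := xl) (τ := τ) (ρ := ρ) (L := L) hT (by linarith) hτ
    (by linarith) hxr hxl (fun p hp => by rw [(hneg p).1, abs_neg]; exact hRL p hp)
    (fun p hp h => by
      rw [(hneg p).2, habs] at h
      rw [(hneg p).1]
      linarith [(hout p hp h).1])
    (fun p h h' h'' => by
      rw [(hneg p).2, habs] at h
      rw [(hneg p).1] at h' h''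
      exact hin p h (by linarith) (by linarith))
    (fun x hx => by
      obtain ⟨b1, b2⟩ := hband (-x) (by rwa [abs_neg])
      have e1 : x * T + -k - -yc = -(-x * T + k - yc) := by ring
      have e2 : x * T' + -k' - -yc = -(-x * T' + k' - yc) := by ring
      rw [e1, e2, abs_neg, abs_neg]
      exact ⟨b1, b2⟩) S2
    (fun p hp => by
      rw [(hneg p).1, (hneg p).2]
      have := (h2 p).1 hp
      constructor <;> linarith)
    (fun p p1 p2 => by
      rw [(hneg p).1, (hneg p).2] at p1 p2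
      exact (h2 p).2 ⟨by linarith, by linarith⟩)
  have hbig : (2 * τ) ^ 2 * (T' - T) / 2 < (xl + xr - 2 * τ) ^ 2 * (T' - T) / 2 := by
    have : (2 * τ) ^ 2 < (xl + xr - 2 * τ) ^ 2 := by nlinarith
    have := mul_lt_mul_of_pos_right this hΔ
    linarith
  have hmono : ∀ x y : ℝ, 0 ≤ x → x ≤ y → x ^ 2 * (T' - T) / 2 ≤ y ^ 2 * (T' - T) / 2 := by
    intro x y hx hxy
    have : x ^ 2 ≤ y ^ 2 := pow_le_pow_left₀ hx hxy 2
    have := mul_le_mul_of_nonneg_right this hΔ.le
    linarith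
  have hcancel : ∀ x y : ℝ, 0 ≤ x → 0 ≤ y → x ^ 2 * (T' - T) / 2 ≤ y ^ 2 * (T' - T) / 2 →
      x ≤ y := by
    intro x y hx hy hxy
    have h3 : x ^ 2 ≤ y ^ 2 := by
      have : x ^ 2 * (T' - T) ≤ y ^ 2 * (T' - T) := by linarith
      exact le_of_mul_le_mul_right this hΔ
    exact (pow_le_pow_iff_left₀ hx hy (by norm_num)).1 h3
  -- the crossing point is in the inner interval
  have a1 : -xl + τ ≤ X1 := by
    by_contra hcon
    push Not at hcon
    have h3 := l1 (-xl + τ) hcon.le le_rfl (by linarith)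
    have h5 := hmono (max 0 (xl + τ - -X1)) (2 * τ) (le_max_left _ _)
      (max_le (by linarith) (by linarith))
    have e1 : xr - τ - (-xl + τ) = xl + xr - 2 * τ := by ring
    rw [e1] at h3
    linarith
  have a2 : X1 ≤ xr - τ := by
    by_contra hcon
    push Not at hcon
    have h3 := l2 (-(xr - τ)) (by linarith) (by linarith) (by linarith)
    have h5 := hmono (max 0 (xr + τ - X1)) (2 * τ) (le_max_left _ _)
      (max_le (by linarith) (by linarith))
    have e1 : xl - τ - -(xr - τ) = xl + xr - 2 * τ := by ring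
    rw [e1] at h3
    linarith
  have m1 : max 0 (xr + τ - X1) = xr + τ - X1 := max_eq_right (by linarith)
  have m2 : max 0 (xl + τ - -X1) = xl + τ - -X1 := max_eq_right (by linarith)
  rw [m1] at u1
  rw [m2] at u2
  have l1' := l1 X1 le_rfl a1 a2
  have l2' := l2 (-X1) le_rfl (by linarith) (by linarith)
  have b1 : xr - τ - X1 ≤ xl + τ - -X1 := hcancel _ _ (by linarith) (by linarith) (by linarith)
  have b2 : xl - τ - -X1 ≤ xr + τ - X1 := hcancel _ _ (by linarith) (by linarith) (by linarith)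
  refine ⟨?_, ?_, ?_⟩
  · refine u2.trans (hmono _ _ (by linarith) (by linarith))
  · intro s hs
    have e1 : S1 ∩ {p | s ≤ dot a p} = S1 := by
      apply inter_eq_left.2
      intro p hp
      obtain ⟨p1, p2⟩ := (h1 p).1 hp
      show s ≤ dot a p
      by_contra hcon
      push Not at hcon
      have : dot a p < X1 := by linarith
      nlinarith
    rw [e1]
    refine le_trans (hmono _ _ (by linarith) (by linarith)) l1'
  · intro s hs
    have h3 := up hU hR (neg_unit ha) (T := T) (T' := T') (k := -k) (k' := -k') (X1 := -X1)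
      (c := -s) hT (by linarith) (S2 ∩ {p | s ≤ dot a p}) (by
        rintro p ⟨hp, hps⟩ _
        rw [(hneg p).1, (hneg p).2]
        have := (h2 p).1 hp
        have hps' : s ≤ dot a p := hps
        refine ⟨?_, ?_, ?_⟩ <;> linarith)
    refine h3.trans (hmono _ _ (le_max_left _ _) (max_le (by linarith) (by linarith)))

lemma dot_ee (φ θ : ℝ) (p : E2) : dot (e (φ + θ + Real.pi / 2)) p =
    -(Real.sin θ) * dot (e φ) p + Real.cos θ * dot (rot (e φ)) p := by
  rw [← rot_e]
  unfold dot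
  simp only [rot_zero, rot_one, e_zero', e_one', Real.cos_add, Real.sin_add]
  ring

/-- **WV** -/
theorem WV : P_WV := by
  intro hU hL R hR φ θ θ' h h' yc xl xr τ ρ L hθ hθθ hθ' hτ h4 hxl hxr hRL hout hin hband hV hV'
  have := hR.fin
  have ha : dot (e φ) (e φ) = 1 := by rw [dot_e, sub_self, Real.cos_zero]
  have hc : 0 < Real.cos θ := Real.cos_pos_of_mem_Ioo ⟨by linarith, by linarith⟩
  have hc' : 0 < Real.cos θ' := Real.cos_pos_of_mem_Ioo ⟨by linarith, by linarith⟩
  have hT : Real.tan θ < Real.tan θ' := Real.tan_lt_tan_of_lt_of_lt_pi_div_two hθ hθ' hθθ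
  rw [← rot_e] at hout hin
  have hmem : ∀ (ψ g : ℝ), 0 < Real.cos ψ → ∀ p : E2, g ≤ dot (e (φ + ψ + Real.pi / 2)) p ↔
      dot (e φ) p * Real.tan ψ + g / Real.cos ψ ≤ dot (rot (e φ)) p := by
    intro ψ g hψ p
    rw [dot_ee, Real.tan_eq_sin_div_cos]
    have e1 : dot (e φ) p * (Real.sin ψ / Real.cos ψ) + g / Real.cos ψ =
        (dot (e φ) p * Real.sin ψ + g) / Real.cos ψ := by ring
    rw [e1, div_le_iff₀ hψ]
    constructor <;> intro h <;> linarith
  have key := core hU hL hR ha hT hτ h4 hxl hxr hRL hout hin hband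
    ({p | h ≤ dot (e (φ + θ + Real.pi / 2)) p} \ {p | h' ≤ dot (e (φ + θ' + Real.pi / 2)) p})
    ({p | h' ≤ dot (e (φ + θ' + Real.pi / 2)) p} \ {p | h ≤ dot (e (φ + θ + Real.pi / 2)) p})
    (fun p => by
      rw [mem_sdiff, mem_ofPred_eq, mem_ofPred_eq, hmem θ h hc, hmem θ' h' hc', not_le])
    (fun p => by
      rw [mem_sdiff, mem_ofPred_eq, mem_ofPred_eq, hmem θ h hc, hmem θ' h' hc', not_le])
    (by
      have s1 := measureReal_inter_add_sdiff (μ := mu R)
        (s := {p | h ≤ dot (e (φ + θ + Real.pi / 2)) p})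
        (half_meas (e (φ + θ' + Real.pi / 2)) h')
      have s2 := measureReal_inter_add_sdiff (μ := mu R)
        (s := {p | h' ≤ dot (e (φ + θ' + Real.pi / 2)) p})
        (half_meas (e (φ + θ + Real.pi / 2)) h)
      rw [inter_comm] at s2
      unfold H at hV hV'
      linarith)
  exact key

end Pool.Agent.W2helper53.QD
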